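import Pool.Agent.Lib.MP_ab8df0_nt.A.Twr

/-! Square classes with even valuation outside 6. -/

namespace Pool.Agent.Lib.MP_ab8df0_nt.A.K12

open Pool.Agent.Lib.MP_ab8df0_nt.A

/-- Lower coefficients of the polynomial. -/
def fl : List ℤ := [-12, 0, 0]

/-- The modulus. -/
def m : ℕ := nat_lit 0x780c7372621bd74d

/-- The roots modulo the modulus. -/
def ρ : List ℕ := [nat_lit 0x4922cafd52d2c525, nat_lit 0x595c5b03f046358, nat_lit 0x2953e2c4d044aed0]

theorem a0 : CovA fl 6 8 m 3 ρ 0 (0 + 9) := covA _ _ _ _ _ _ _ _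
  [(0, []),
  (0, [⟨[3], 1, 1, [1], [2, 1]⟩, ⟨[1, 2], 1, 2, [4, 1], []⟩]),
  (0, [⟨[5, 0, 0], 1, 2, [0, 0, 1], []⟩])] (by decide +kernel)

theorem ra {F : Type*} [Field F] [NumberField F] {α : NumberField.RingOfIntegers F} (h : Gen α fl) :
    Range F 6 8 0 9 :=
  have hs : splitOK fl m 3 ρ = true := by decide +kernel
  a0.range h hs

open NumberField IsDedekindDomain

variable {F : Type*} [Field F] [NumberField F] {α : 𝓞 F}

theorem c2 (h : Gen α fl) : Cnt F 2 1 :=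
  h.cnt' (l := [0, 0, 1]) (d := 2) (gl := [-18, 0, 0])
    (l' := [0, 0, 1]) (d' := 3) (m := m) (r := 3)
    (ρ := [nat_lit 0x17590ed086305df4, nat_lit 0x27eb3ab788483d02, nat_lit 0x38c829ea53a33c57]) Nat.prime_two
    (cs := [(⟨[0], 3, 1, [1], [0, 1]⟩, 1)]) (by decide +kernel)

theorem c3 (h : Gen α fl) : Cnt F 3 1 :=
  h.cnt (m := m) (r := 3) (ρ := ρ) Nat.prime_three (l := [(⟨[0], 3, 1, [1], [0, 1]⟩, 1)]) (by decide +kernel)

/-- The generators. -/
def g : Fin 4 → List ℤ := ![[-1],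
  [0, 1],
  [2],
  [-2, 1]]

theorem SU (h : Gen α fl) {ξ : F} (h0 : ξ ≠ 0)
    (hξ : ∀ v : HeightOneSpectrum (𝓞 F), ((6 : ℕ) : 𝓞 F) ∉ v.asIdeal →
      ∃ k : ℤ, v.valuation F ξ = WithZero.exp (2 * k)) :
    ∃ (e : Fin 4 → Bool) (u : F), ξ = (∏ i, if e i then ev (α : F) (g i) else 1) * u ^ 2 :=
  h.SU (M := 8) (m := m) (r := 3) (ρ := ρ) (D := 3888) (dF := 972)
    (bs := [([1], 1, [-1, 3, -3]), ([0, 1], 1, [-12, 0, 0]), ([0, 0, 1], 2, [-18, 0, 0])])
    (K := 10000000000000000000000000000000000000000) (E := 10000000000000000000000000000000000000000) (zs := [⟨-11447142425533318678080422119396770089159, 19827032282500941423417970146738761901578⟩, ⟨-11447142425533318678080422119396770089159, -19827032282500941423417970146738761901578⟩]) (T := 19)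
    (c := ![(47, 34), (137, 132), (373, 259), (97, 48)]) (by decide +kernel)
    ((c2 h).mul (c3 h)) (ra h) h0 hξ

instance : Fact (Irreducible (mq fl)) :=
  ⟨irr_of_eis Nat.prime_three (by decide +kernel)⟩

theorem re0 (h : Gen α fl) : ∃ φ : F →+* ℝ, ((2289428485106663735616084423879 : ℤ) : ℝ) / ((10 ^ 30 : ℕ) : ℝ) < φ α ∧
    φ α < ((2289428485106663735616084423880 : ℤ) : ℝ) / ((10 ^ 30 : ℕ) : ℝ) := h.real (by decide +kernel)


end Pool.Agent.Lib.MP_ab8df0_nt.A.K12
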